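import Mathlib

/-!
# MP_eaeafc_co : permutational 1-11-representants

Every finite graph is 1-11-represented by a concatenation of permutations of its vertices.
-/

namespace Pool.Agent.Results.MP_eaeafc_co.AllGraphs

universe u

variable {V : Type u} [DecidableEq V]

/-- The number of occurrences of the consecutive pattern `11` in a word: the number of pairs of
adjacent positions carrying the same letter. -/
def occ : List V → ℕ
  | a :: b :: l => (if a = b then 1 else 0) + occ (b :: l)
  | [_] => 0
  | [] => 0

/-- The word obtained from `w` by deleting all letters other than `x` and `y`. -/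
def restrict (w : List V) (x y : V) : List V := w.filter (fun c => c = x ∨ c = y)

/-- The word `w` `k`-11-represents the graph `G`. -/
def Represents (k : ℕ) (w : List V) (G : SimpleGraph V) : Prop :=
  (∀ v : V, v ∈ w) ∧ ∀ x y : V, x ≠ y → (G.Adj x y ↔ occ (restrict w x y) ≤ k)

/-- `G` is `k`-11-representable. -/
def Representable (k : ℕ) (G : SimpleGraph V) : Prop := ∃ w : List V, Represents k w G

/-- `p` is a permutation of `V`: every vertex occurs exactly once in `p`. -/
def IsPermutation (p : List V) : Prop := p.Nodup ∧ ∀ v : V, v ∈ p

/-- `G` is permutationally `k`-11-representable: it is `k`-11-represented by a concatenation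
`p_1 p_2 ⋯ p_t` (`t ≥ 1`) of permutations of `V`. -/
def PermutationallyRepresentable (k : ℕ) (G : SimpleGraph V) : Prop :=
  ∃ ps : List (List V), ps ≠ [] ∧ (∀ p ∈ ps, IsPermutation p) ∧ Represents k ps.flatten G

/-- `G` has a uniform `k`-11-representant. -/
def UniformlyRepresentable (k : ℕ) (G : SimpleGraph V) : Prop :=
  ∃ w : List V, (∃ m : ℕ, ∀ v : V, w.count v = m) ∧ Represents k w G

/-! ### The sequence of permutations -/

section seq

variable (G : SimpleGraph V) [DecidableRel G.Adj]

/-- Move the letter `a` through the word `post`. -/
def mv (a : V) : List V → List V → List (List V)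
  | pre, [] => [pre ++ [a]]
  | pre, b :: post =>
    (if G.Adj a b then [pre ++ b :: a :: post]
      else [pre ++ b :: a :: post, pre ++ a :: b :: post, pre ++ b :: a :: post]) ++
      mv a (pre ++ [b]) post

/-- The sequence of permutations. -/
def sq : List V → List (List V)
  | [] => [[]]
  | a :: L => (sq L).map (fun p => a :: p) ++ mv G a [] L.reverse

omit [DecidableEq V] in
theorem mv_perm (a : V) (post : List V) : ∀ pre, ∀ p ∈ mv G a pre post,
    p.Perm (a :: (pre ++ post)) := by
  induction post with
  | nil =>
    intro pre p hp
    simp only [mv, List.mem_singleton] at hp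
    subst hp
    simp
  | cons b post ih =>
    intro pre p hp
    rw [mv, List.mem_append] at hp
    have h1 : (pre ++ b :: a :: post).Perm (a :: (pre ++ b :: post)) := by
      have : (pre ++ b :: a :: post).Perm (pre ++ a :: b :: post) :=
        List.Perm.append_left _ (List.Perm.swap _ _ _)
      exact this.trans List.perm_middle
    have h2 : (pre ++ a :: b :: post).Perm (a :: (pre ++ b :: post)) := List.perm_middle
    rcases hp with hp | hp
    · split_ifs at hp
      · simp only [List.mem_singleton] at hp
        subst hp
        exact h1
      · simp only [List.mem_cons, List.not_mem_nil, or_false] at hp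
        rcases hp with rfl | rfl | rfl
        · exact h1
        · exact h2
        · exact h1
    · have := ih _ p hp
      simpa using this

omit [DecidableEq V] in
theorem sq_perm (L : List V) : ∀ p ∈ sq G L, p.Perm L := by
  induction L with
  | nil =>
    intro p hp
    simp only [sq, List.mem_singleton] at hp
    subst hp
    exact List.Perm.refl _
  | cons a L ih =>
    intro p hp
    rw [sq, List.mem_append] at hp
    rcases hp with hp | hp
    · rw [List.mem_map] at hp
      obtain ⟨q, hq, rfl⟩ := hp
      exact (ih q hq).cons a
    · have := mv_perm G a L.reverse [] p hp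
      simp only [List.nil_append] at this
      exact this.trans ((List.reverse_perm L).cons a)

omit [DecidableEq V] in
theorem mv_last (a : V) (post : List V) : ∀ pre, ∃ init, mv G a pre post =
    init ++ [pre ++ post ++ [a]] := by
  induction post with
  | nil =>
    intro pre
    exact ⟨[], by simp [mv]⟩
  | cons b post ih =>
    intro pre
    obtain ⟨init, hi⟩ := ih (pre ++ [b])
    rw [mv, hi]
    exact ⟨_, by rw [← List.append_assoc, List.append_assoc pre [b] post]; rfl⟩

omit [DecidableEq V] in
theorem sq_last (L : List V) : ∃ init, sq G L = init ++ [L.reverse] := by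
  cases L with
  | nil => exact ⟨[], by simp [sq]⟩
  | cons a L =>
    obtain ⟨init, hi⟩ := mv_last G a L.reverse []
    rw [sq, hi, List.reverse_cons, List.nil_append]
    exact ⟨_, by rw [← List.append_assoc]⟩

/-- The relative order of `x` and `y` in `p`. -/
def bit (x y : V) (p : List V) : Bool := decide (restrict p x y = [x, y])

theorem mv_bit_other (a x y : V) (hx : x ≠ a) (hy : y ≠ a) (post : List V) :
    ∀ pre, ∃ N, (mv G a pre post).map (bit x y) = List.replicate N (bit x y (pre ++ post)) := by
  have hax : ¬ (a = x) := fun h => hx h.symm
  have hay : ¬ (a = y) := fun h => hy h.symm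
  induction post with
  | nil =>
    intro pre
    refine ⟨1, ?_⟩
    simp [mv, bit, restrict, List.filter_append, hax, hay]
  | cons b post ih =>
    intro pre
    obtain ⟨N, hN⟩ := ih (pre ++ [b])
    have h0 : bit x y (pre ++ [b] ++ post) = bit x y (pre ++ b :: post) := by simp
    have h1 : bit x y (pre ++ b :: a :: post) = bit x y (pre ++ b :: post) := by
      simp [bit, restrict, List.filter_append, List.filter_cons, hax, hay]
    have h2 : bit x y (pre ++ a :: b :: post) = bit x y (pre ++ b :: post) := by
      simp [bit, restrict, List.filter_append, List.filter_cons, hax, hay]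
    rw [mv, List.map_append, hN, h0]
    split_ifs
    · refine ⟨N + 1, ?_⟩
      simp only [List.map_cons, List.map_nil, h1]
      rfl
    · refine ⟨N + 3, ?_⟩
      simp only [List.map_cons, List.map_nil, h1, h2]
      rfl

theorem restrict_not_mem (x y : V) (l : List V) (hx : x ∉ l) (hy : y ∉ l) :
    restrict l x y = [] := by
  unfold restrict
  rw [List.filter_eq_nil_iff]
  intro c hc
  simp only [decide_eq_true_eq]
  rintro (rfl | rfl)
  · exact hx hc
  · exact hy hc

theorem restrict_one (x y : V) (l : List V) (hn : l.Nodup) (hx : x ∉ l) (hy : y ∈ l) :
    restrict l x y = [y] := by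
  obtain ⟨s, t, rfl⟩ := List.append_of_mem hy
  have hn' : (y :: (s ++ t)).Nodup := (List.perm_middle.nodup_iff).mp hn
  rw [List.nodup_cons] at hn'
  obtain ⟨h1, _⟩ := hn'
  simp only [List.mem_append, not_or] at h1
  simp only [List.mem_append, List.mem_cons, not_or] at hx
  have e1 := restrict_not_mem x y s hx.1 h1.1
  have e2 := restrict_not_mem x y t hx.2.2 h1.2
  unfold restrict at *
  rw [List.filter_append, List.filter_cons, e1, e2]
  simp

theorem restrict_append (x y : V) (l m : List V) :
    restrict (l ++ m) x y = restrict l x y ++ restrict m x y := by
  unfold restrict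
  exact List.filter_append _ _

theorem restrict_cons_self (x y : V) (l : List V) :
    restrict (x :: l) x y = x :: restrict l x y := by
  unfold restrict
  simp

/-- after passing `b` -/
theorem mv_bit_after (a b : V) (hab : a ≠ b) (post : List V) :
    ∀ pre, (pre ++ post).Nodup → a ∉ pre ++ post → b ∈ pre →
      ∃ N, (mv G a pre post).map (bit a b) = List.replicate (N + 1) false := by
  have key : ∀ l m : List V, (l ++ m).Nodup → a ∉ l ++ m → b ∈ l →
      bit a b (l ++ a :: m) = false := by
    intro l m hn ha hb
    have hn' := List.nodup_append.mp hn
    simp only [List.mem_append, not_or] at ha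
    have hbm : b ∉ m := fun h => (hn'.2.2 b hb b h) rfl
    have e1 := restrict_one a b l hn'.1 ha.1 hb
    have e2 := restrict_not_mem a b m ha.2 hbm
    unfold bit
    rw [restrict_append, restrict_cons_self, e1, e2]
    simp [hab.symm]
  induction post with
  | nil =>
    intro pre hn ha hb
    refine ⟨0, ?_⟩
    have := key pre [] hn ha hb
    simp only [mv, List.map_cons, List.map_nil, this]
    rfl
  | cons c post ih =>
    intro pre hn ha hb
    have hn2 : (pre ++ [c] ++ post).Nodup := by simpa using hn
    have ha2 : a ∉ pre ++ [c] ++ post := by simpa using ha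
    obtain ⟨N, hN⟩ := ih (pre ++ [c]) hn2 ha2 (by simp [hb])
    have h1 : bit a b (pre ++ c :: a :: post) = false := by
      have := key (pre ++ [c]) post hn2 ha2 (by simp [hb])
      simpa using this
    have h2 : bit a b (pre ++ a :: c :: post) = false := key pre (c :: post) hn ha hb
    rw [mv, List.map_append, hN]
    split_ifs
    · refine ⟨N + 1, ?_⟩
      simp only [List.map_cons, List.map_nil, h1]
      rfl
    · refine ⟨N + 3, ?_⟩
      simp only [List.map_cons, List.map_nil, h1, h2]
      rfl

/-- the bits of the pair `a`, `b` while `a` moves through `post ∋ b` -/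
theorem mv_bit_pair (a b : V) (hab : a ≠ b) (post : List V) :
    ∀ pre, (pre ++ post).Nodup → a ∉ pre ++ post → b ∈ post →
      ∃ M N, (mv G a pre post).map (bit a b) = List.replicate M true ++
        (if G.Adj a b then [false] else [false, true, false]) ++ List.replicate (N + 1) false := by
  have key : ∀ l m : List V, (l ++ m).Nodup → a ∉ l ++ m → b ∈ m →
      bit a b (l ++ a :: m) = true := by
    intro l m hn ha hb
    have hn' := List.nodup_append.mp hn
    simp only [List.mem_append, not_or] at ha
    have hbl : b ∉ l := fun h => (hn'.2.2 b h b hb) rfl
    have e1 := restrict_one a b m hn'.2.1 ha.2 hb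
    have e2 := restrict_not_mem a b l ha.1 hbl
    unfold bit
    rw [restrict_append, restrict_cons_self, e1, e2]
    simp
  induction post with
  | nil =>
    intro pre hn ha hb
    simp at hb
  | cons c post ih =>
    intro pre hn ha hb
    have hn2 : (pre ++ [c] ++ post).Nodup := by simpa using hn
    have ha2 : a ∉ pre ++ [c] ++ post := by simpa using ha
    by_cases hcb : c = b
    · subst hcb
      obtain ⟨N, hN⟩ := mv_bit_after G a c hab post (pre ++ [c]) hn2 ha2 (by simp)
      have h1 : bit a c (pre ++ c :: a :: post) = false := by
        have hn' := List.nodup_append.mp hn2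
        simp only [List.mem_append, not_or] at ha2
        have hbm : c ∉ post := fun h => (hn'.2.2 c (by simp) c h) rfl
        have e1 := restrict_one a c (pre ++ [c]) hn'.1 (by simpa using ha2.1) (by simp)
        have e2 := restrict_not_mem a c post ha2.2 hbm
        have e3 : pre ++ c :: a :: post = (pre ++ [c]) ++ a :: post := by simp
        unfold bit
        rw [e3, restrict_append, restrict_cons_self, e1, e2]
        simp [hab.symm]
      have h2 : bit a c (pre ++ a :: c :: post) = true := key pre (c :: post) hn ha hb
      refine ⟨0, N, ?_⟩
      rw [mv, List.map_append, hN]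
      split_ifs
      · simp only [List.map_cons, List.map_nil, h1, List.replicate_zero, List.nil_append]
      · simp only [List.map_cons, List.map_nil, h1, h2, List.replicate_zero, List.nil_append]
    · have hb2 : b ∈ post := by
        rcases List.mem_cons.mp hb with h | h
        · exact absurd h.symm hcb
        · exact h
      obtain ⟨M, N, hMN⟩ := ih (pre ++ [c]) hn2 ha2 hb2
      have h1 : bit a b (pre ++ c :: a :: post) = true := by
        have := key (pre ++ [c]) post hn2 ha2 hb2
        simpa using this
      have h2 : bit a b (pre ++ a :: c :: post) = true := key pre (c :: post) hn ha hb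
      rw [mv, List.map_append, hMN]
      by_cases hac : G.Adj a c
      · rw [if_pos hac]
        refine ⟨M + 1, N, ?_⟩
        simp only [List.map_cons, List.map_nil, h1]
        rfl
      · rw [if_neg hac]
        refine ⟨M + 3, N, ?_⟩
        simp only [List.map_cons, List.map_nil, h1, h2]
        rfl

end seq

/-! ### Counting -/

/-- The number of changes in a list of bits. -/
def changes : List Bool → ℕ
  | a :: b :: l => (if a = b then 0 else 1) + changes (b :: l)
  | [_] => 0
  | [] => 0

theorem occ_bits (x y : V) (hxy : x ≠ y) (bs : List Bool) :
    occ (bs.flatMap (fun b => if b then [x, y] else [y, x])) = changes bs := by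
  induction bs with
  | nil => rfl
  | cons b bs ih =>
    cases bs with
    | nil => cases b <;> simp [occ, changes, hxy, hxy.symm]
    | cons c bs =>
      rw [List.flatMap_cons]
      rw [List.flatMap_cons] at ih ⊢
      cases b <;> cases c <;>
        simp only [if_true, if_false, Bool.false_eq_true, List.cons_append, List.nil_append, occ,
          changes, hxy, hxy.symm, reduceCtorEq] at ih ⊢ <;> omega

theorem changes_const (l : List Bool) (c : Bool) (N : ℕ) :
    changes (l ++ [c] ++ List.replicate N c) = changes (l ++ [c]) := by
  induction l with
  | nil =>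
    induction N with
    | zero => rfl
    | succ N ih =>
      simp only [List.replicate_succ, List.nil_append, List.cons_append, changes, if_true] at ih ⊢
      omega
  | cons a l ih =>
    cases l with
    | nil =>
      simp only [List.nil_append, List.cons_append, changes] at ih ⊢
      omega
    | cons b l =>
      simp only [List.cons_append, changes] at ih ⊢
      omega

theorem changes_true (M : ℕ) (l : List Bool) :
    changes l ≤ changes (List.replicate M true ++ l) ∧
      changes (List.replicate M true ++ l) ≤ changes l + 1 := by
  have h1 : ∀ M, changes (List.replicate (M + 1) true ++ l) = changes (true :: l) := by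
    intro M
    induction M with
    | zero => rfl
    | succ M ih =>
      rw [← ih]
      simp [List.replicate_succ, changes]
  cases M with
  | zero => simp
  | succ M =>
    rw [h1]
    cases l with
    | nil => simp [changes]
    | cons c l =>
      simp only [changes]
      split_ifs <;> omega

theorem changes_edge (M N : ℕ) :
    changes (List.replicate M true ++ [false] ++ List.replicate N false) ≤ 1 := by
  have h := changes_true M ([false] ++ List.replicate N false)
  have h2 := changes_const [] false N
  simp only [List.nil_append] at h2
  rw [h2] at h
  rw [List.append_assoc]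
  simp only [changes] at h
  omega

theorem changes_nonedge (M N : ℕ) :
    2 ≤ changes (List.replicate M true ++ [false, true, false] ++ List.replicate N false) := by
  have h := changes_true M ([false, true, false] ++ List.replicate N false)
  rw [List.append_assoc]
  refine le_trans ?_ h.1
  simp only [List.cons_append, List.nil_append, changes, reduceCtorEq, if_false]
  omega

theorem changes_not (l : List Bool) : changes (l.map (fun b => !b)) = changes l := by
  induction l with
  | nil => rfl
  | cons a l ih =>
    cases l with
    | nil => rfl
    | cons b l =>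
      simp only [List.map_cons, changes] at ih ⊢
      rw [ih]
      cases a <;> cases b <;> rfl

theorem restrict_pair (x y : V) (hxy : x ≠ y) (p : List V) (hn : p.Nodup) (hx : x ∈ p)
    (hy : y ∈ p) : restrict p x y = [x, y] ∨ restrict p x y = [y, x] := by
  unfold restrict
  have hp : (p.filter (fun c => c = x ∨ c = y)).Perm [x, y] := by
    refine (List.perm_ext_iff_of_nodup (hn.filter _) (by simp [hxy])).mpr ?_
    intro a
    simp only [List.mem_filter, decide_eq_true_eq, List.mem_cons, List.not_mem_nil, or_false]
    constructor
    · exact fun h => h.2
    · rintro (rfl | rfl)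
      · exact ⟨hx, Or.inl rfl⟩
      · exact ⟨hy, Or.inr rfl⟩
  have hlen := hp.length_eq
  simp only [List.length_cons, List.length_nil] at hlen
  obtain ⟨a, b, hab⟩ := List.length_eq_two.mp hlen
  rw [hab] at hp ⊢
  have ha : a ∈ [x, y] := hp.mem_iff.mp (by simp)
  have hb : b ∈ [x, y] := hp.mem_iff.mp (by simp)
  have hne : a ≠ b := by
    have := hp.nodup_iff.mpr (by simp [hxy])
    simpa using this
  simp only [List.mem_cons, List.not_mem_nil, or_false] at ha hb
  rcases ha with rfl | rfl <;> rcases hb with rfl | rfl <;> simp_all

theorem restrict_bit (x y : V) (hxy : x ≠ y) (p : List V) (hn : p.Nodup) (hx : x ∈ p)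
    (hy : y ∈ p) : restrict p x y = if bit x y p then [x, y] else [y, x] := by
  unfold bit
  rcases restrict_pair x y hxy p hn hx hy with h | h <;> rw [h] <;> simp [hxy, hxy.symm]

theorem restrict_comm (x y : V) (p : List V) : restrict p x y = restrict p y x := by
  unfold restrict
  congr 1
  funext c
  simp only [decide_eq_decide]
  exact Or.comm

theorem bit_swap (x y : V) (hxy : x ≠ y) (p : List V) (hn : p.Nodup) (hx : x ∈ p)
    (hy : y ∈ p) : bit y x p = !(bit x y p) := by
  unfold bit
  rw [restrict_comm y x]
  rcases restrict_pair x y hxy p hn hx hy with h | h <;> rw [h] <;> simp [hxy, hxy.symm]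

theorem restrict_flatten (x y : V) (ps : List (List V)) (hxy : x ≠ y)
    (h : ∀ p ∈ ps, p.Nodup ∧ x ∈ p ∧ y ∈ p) :
    occ (restrict ps.flatten x y) = changes (ps.map (bit x y)) := by
  rw [← occ_bits x y hxy]
  congr 1
  induction ps with
  | nil => rfl
  | cons p ps ih =>
    rw [List.flatten_cons, restrict_append, List.map_cons, List.flatMap_cons,
      ih (fun q hq => h q (List.mem_cons_of_mem _ hq))]
    obtain ⟨h1, h2, h3⟩ := h p (List.mem_cons_self)
    rw [← restrict_bit x y hxy p h1 h2 h3]

section main

variable (G : SimpleGraph V) [DecidableRel G.Adj]

theorem sq_good (L : List V) (hn : L.Nodup) : ∀ x ∈ L, ∀ y ∈ L, x ≠ y →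
    (G.Adj x y → changes ((sq G L).map (bit x y)) ≤ 1) ∧
    (¬ G.Adj x y → 2 ≤ changes ((sq G L).map (bit x y))) := by
  induction L with
  | nil => intro x hx; simp at hx
  | cons a L ih =>
    rw [List.nodup_cons] at hn
    obtain ⟨haL, hnL⟩ := hn
    -- the case of the first letter
    have first : ∀ b ∈ L, (G.Adj a b → changes ((sq G (a :: L)).map (bit a b)) ≤ 1) ∧
        (¬ G.Adj a b → 2 ≤ changes ((sq G (a :: L)).map (bit a b))) := by
      intro b hb
      have hab : a ≠ b := fun h => haL (h ▸ hb)
      obtain ⟨M, N, hMN⟩ := mv_bit_pair G a b hab L.reverse [] (by simpa using hnL)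
        (by simpa using haL) (by simpa using hb)
      have h1 : ((sq G L).map (fun p => a :: p)).map (bit a b) =
          List.replicate (sq G L).length true := by
        rw [List.map_map, List.eq_replicate_iff]
        refine ⟨by simp, ?_⟩
        intro c hc
        rw [List.mem_map] at hc
        obtain ⟨p, hp, rfl⟩ := hc
        have hpp := sq_perm G L p hp
        simp only [Function.comp]
        unfold bit
        rw [restrict_cons_self, restrict_one a b p (hpp.nodup_iff.mpr hnL)
          (fun h => haL (hpp.mem_iff.mp h)) (hpp.mem_iff.mpr hb)]
        simp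
      rw [sq, List.map_append, h1, hMN]
      constructor
      · intro hadj
        rw [if_pos hadj]
        have := changes_edge ((sq G L).length + M) (N + 1)
        rw [List.replicate_add] at this
        simp only [List.append_assoc] at this ⊢
        exact this
      · intro hadj
        rw [if_neg hadj]
        have := changes_nonedge ((sq G L).length + M) (N + 1)
        rw [List.replicate_add] at this
        simp only [List.append_assoc] at this ⊢
        exact this
    intro x hx y hy hxy
    rw [List.mem_cons] at hx hy
    rcases hx with rfl | hx
    · rcases hy with rfl | hy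
      · exact absurd rfl hxy
      · exact first y hy
    · rcases hy with rfl | hy
      · have h1 := first x hx
        have h2 : (sq G (y :: L)).map (bit x y) =
            ((sq G (y :: L)).map (bit y x)).map (fun b => !b) := by
          rw [List.map_map]
          apply List.map_congr_left
          intro p hp
          have hpp := sq_perm G (y :: L) p hp
          have hnn : (y :: L).Nodup := List.nodup_cons.mpr ⟨haL, hnL⟩
          exact bit_swap y x hxy.symm p (hpp.nodup_iff.mpr hnn) (hpp.mem_iff.mpr (by simp))
            (hpp.mem_iff.mpr (by simp [hx]))
        rw [h2, changes_not]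
        exact ⟨fun h => h1.1 h.symm, fun h => h1.2 (fun h' => h h'.symm)⟩
      · have hxa : x ≠ a := fun h => haL (h ▸ hx)
        have hya : y ≠ a := fun h => haL (h ▸ hy)
        obtain ⟨N, hN⟩ := mv_bit_other G a x y hxa hya L.reverse []
        obtain ⟨init, hi⟩ := sq_last G L
        have h1 : ((sq G L).map (fun p => a :: p)).map (bit x y) = (sq G L).map (bit x y) := by
          rw [List.map_map]
          apply List.map_congr_left
          intro p _
          simp only [Function.comp]
          unfold bit restrict
          have hax : ¬ (a = x) := fun h => hxa h.symm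
          have hay : ¬ (a = y) := fun h => hya h.symm
          rw [List.filter_cons]
          simp [hax, hay]
        have h2 : changes ((sq G (a :: L)).map (bit x y)) = changes ((sq G L).map (bit x y)) := by
          rw [sq, List.map_append, h1, hN, hi, List.map_append, List.nil_append, List.map_cons,
            List.map_nil, changes_const]
        rw [h2]
        exact ih hnL x hx y hy hxy

end main

theorem all_graphs [Fintype V] (G : SimpleGraph V) :
    ∃ ps : List (List V), ps ≠ [] ∧ (∀ p ∈ ps, IsPermutation p) ∧
      Represents 1 ps.flatten G := by
  classical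
  have hn : (Finset.univ : Finset V).toList.Nodup := Finset.nodup_toList _
  have hm : ∀ v, v ∈ (Finset.univ : Finset V).toList := by simp
  obtain ⟨init, hi⟩ := sq_last G (Finset.univ : Finset V).toList
  have hperm : ∀ p ∈ sq G (Finset.univ : Finset V).toList, p.Nodup ∧ ∀ v, v ∈ p := by
    intro p hp
    have hpp := sq_perm G _ p hp
    exact ⟨hpp.nodup_iff.mpr hn, fun v => hpp.mem_iff.mpr (hm v)⟩
  refine ⟨sq G (Finset.univ : Finset V).toList, by rw [hi]; simp, hperm, ?_, ?_⟩
  · intro v
    rw [List.mem_flatten]
    have hmem : (Finset.univ : Finset V).toList.reverse ∈ sq G (Finset.univ : Finset V).toList := by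
      rw [hi]
      simp
    exact ⟨_, hmem, (hperm _ hmem).2 v⟩
  · intro x y hxy
    rw [restrict_flatten x y _ hxy (fun p hp => ⟨(hperm p hp).1, (hperm p hp).2 x,
      (hperm p hp).2 y⟩)]
    obtain ⟨h1, h2⟩ := sq_good G _ hn x (hm x) y (hm y) hxy
    constructor
    · exact h1
    · intro h
      by_contra hcon
      have := h2 hcon
      omega

/-- Every finite graph is permutationally 1-11-representable.  In particular every
1-11-representable graph is 1-11-represented by a concatenation of permutations (Q1) and by a
uniform word (Q2). -/
theorem result :
    (∀ (V : Type u) [Fintype V] [DecidableEq V] (G : SimpleGraph V),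
      PermutationallyRepresentable 1 G) ∧
    (∀ (V : Type u) [Fintype V] [DecidableEq V] (G : SimpleGraph V),
      Representable 1 G → PermutationallyRepresentable 1 G) ∧
    (∀ (V : Type u) [Fintype V] [DecidableEq V] (G : SimpleGraph V),
      Representable 1 G → UniformlyRepresentable 1 G) := by
  refine ⟨fun V _ _ G => all_graphs G, fun V _ _ G _ => all_graphs G, ?_⟩
  intro V _ _ G _
  obtain ⟨ps, _, hp, hr⟩ := all_graphs G
  refine ⟨ps.flatten, ⟨ps.length, ?_⟩, hr⟩
  intro v
  rw [List.count_flatten]
  have : ps.map (List.count v) = List.replicate ps.length 1 := by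
    rw [List.eq_replicate_iff]
    refine ⟨by simp, ?_⟩
    intro c hc
    rw [List.mem_map] at hc
    obtain ⟨p, hpp, rfl⟩ := hc
    exact List.count_eq_one_of_mem (hp p hpp).1 ((hp p hpp).2 v)
  rw [this]
  simp

end Pool.Agent.Results.MP_eaeafc_co.AllGraphs
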